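import Mathlib

set_option autoImplicit false
set_option linter.unusedSectionVars false
set_option linter.style.haveILetI false

open MeasureTheory Cardinal Set

namespace Pool.Agent.Results.MP_de1370_an.CwkFailsSC

/-- A function with values in a real Banach space is scalarly measurable when its composition with
every continuous linear functional is measurable. -/
def ScalarlyMeasurable {Ω X : Type} [MeasurableSpace Ω] [NormedAddCommGroup X] [NormedSpace ℝ X]
    (f : Ω → X) : Prop :=
  ∀ φ : StrongDual ℝ X, Measurable (fun t => φ (f t))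

/-- A multi-function is scalarly measurable when it meets every open half-space in a measurable
set of parameters. -/
def ScalarlyMeasurableMulti {Ω X : Type} [MeasurableSpace Ω] [NormedAddCommGroup X]
    [NormedSpace ℝ X] (F : Ω → Set X) : Prop :=
  ∀ φ : StrongDual ℝ X, φ ≠ 0 → ∀ a : ℝ, MeasurableSet {t | (F t ∩ {x | a < φ x}).Nonempty}

/-- The family of nonempty convex weakly compact subsets. -/
def cwk (X : Type) [NormedAddCommGroup X] [NormedSpace ℝ X] : Set (Set X) :=
  {C | C.Nonempty ∧ Convex ℝ C ∧ IsCompact ((toWeakSpace ℝ X) '' C)}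

/-- The countable-cocountable sigma-algebra. -/
@[reducible] def ccMS (Ω : Type) : MeasurableSpace Ω where
  MeasurableSet' s := s.Countable ∨ sᶜ.Countable
  measurableSet_empty := Or.inl countable_empty
  measurableSet_compl s h := by
    rcases h with h | h
    · right; rwa [compl_compl]
    · left; exact h
  measurableSet_iUnion f hf := by
    by_cases h : ∀ i, (f i).Countable
    · left; exact countable_iUnion h
    · right
      push Not at h
      obtain ⟨i, hi⟩ := h
      have h2 := (hf i).resolve_left hi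
      exact h2.mono (compl_subset_compl.mpr (subset_iUnion f i))

open Classical in
/-- The measure which is 0 on countable sets and 1 on cocountable sets. -/
noncomputable def ccMeasure (Ω : Type) [Uncountable Ω] : @Measure Ω (ccMS Ω) :=
  letI := ccMS Ω
  Measure.ofMeasurable (fun s _ => if s.Countable then 0 else 1)
    (by simp)
    (by
      intro f hf hd
      by_cases h : ∀ i, (f i).Countable
      · have : (⋃ i, f i).Countable := countable_iUnion h
        simp only [this, if_true]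
        simp [h]
      · push Not at h
        obtain ⟨i, hi⟩ := h
        have h2 : (f i)ᶜ.Countable := (hf i).resolve_left hi
        have h3 : ¬ (⋃ i, f i).Countable := fun hc => hi (hc.mono (subset_iUnion f i))
        rw [if_neg h3]
        rw [tsum_eq_single i]
        · rw [if_neg hi]
        · intro j hj
          rw [if_pos]
          apply h2.mono
          intro x hx hxi
          exact (Set.disjoint_left.mp (hd hj) hx) hxi)

lemma ccMeasure_apply (Ω : Type) [Uncountable Ω] (s : Set Ω)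
    (hs : @MeasurableSet Ω (ccMS Ω) s) [Decidable s.Countable] :
    ccMeasure Ω s = if s.Countable then 0 else 1 := by
  letI := ccMS Ω
  unfold ccMeasure
  rw [Measure.ofMeasurable_apply s hs]
  congr

lemma ccMeasure_prob (Ω : Type) [Uncountable Ω] :
    @IsProbabilityMeasure Ω (ccMS Ω) (ccMeasure Ω) := by
  letI := ccMS Ω
  classical
  constructor
  rw [ccMeasure_apply Ω univ MeasurableSet.univ]
  rw [if_neg]
  exact Set.not_countable_univ

lemma ccMeasure_complete (Ω : Type) [Uncountable Ω] :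
    @Measure.IsComplete Ω (ccMS Ω) (ccMeasure Ω) := by
  letI := ccMS Ω
  classical
  constructor
  intro s hs
  obtain ⟨t, h1, h2, h3⟩ := exists_measurable_superset_of_null hs
  rw [ccMeasure_apply Ω t h2] at h3
  left
  by_cases h : t.Countable
  · exact h.mono h1
  · rw [if_neg h] at h3
    exact absurd h3 one_ne_zero

/-- a set-mapping with countable values on a disjoint union of three sets of increasing
infinite cardinality has a free triple -/
lemma free_triple {A B C : Type} (hA : ℵ₀ < #A) (hAB : #A < #B) (hBC : #B < #C)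
    (E : A ⊕ B ⊕ C → Set (A ⊕ B ⊕ C)) (hE : ∀ x, (E x).Countable) :
    ∃ a b c : A ⊕ B ⊕ C, a ≠ b ∧ a ≠ c ∧ b ≠ c ∧ a ∉ E b ∧ a ∉ E c ∧ b ∉ E a ∧ b ∉ E c ∧
      c ∉ E a ∧ c ∉ E b := by
  have hEc : ∀ x, #(E x) ≤ ℵ₀ := fun x => (hE x).le_aleph0
  have hunion : ∀ (ι : Type) (g : ι → A ⊕ B ⊕ C), ℵ₀ ≤ #ι → #(⋃ i, E (g i) : Set (A ⊕ B ⊕ C)) ≤ #ι := by
    intro ι g hι
    refine le_trans (mk_iUnion_le _) ?_
    have h1 : (⨆ i, #(E (g i))) ≤ ℵ₀ := ciSup_le' (fun i => hEc _)
    calc #ι * ⨆ i, #(E (g i)) ≤ #ι * ℵ₀ := by gcongr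
      _ = #ι := mul_aleph0_eq hι
  have hB0 : ℵ₀ ≤ #B := (hA.trans hAB).le
  -- choose c
  obtain ⟨c, hc1, hc2⟩ : ∃ c : C, Sum.inr (Sum.inr c) ∉ (⋃ x : A, E (Sum.inl x)) ∧
      Sum.inr (Sum.inr c) ∉ (⋃ x : B, E (Sum.inr (Sum.inl x))) := by
    by_contra hcon
    push Not at hcon
    have h1 : Set.range (fun c : C => (Sum.inr (Sum.inr c) : A ⊕ B ⊕ C)) ⊆
        (⋃ x : A, E (Sum.inl x)) ∪ (⋃ x : B, E (Sum.inr (Sum.inl x))) := by
      rintro _ ⟨c, rfl⟩
      by_cases h : Sum.inr (Sum.inr c) ∈ (⋃ x : A, E (Sum.inl x))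
      · exact Or.inl h
      · exact Or.inr (hcon c h)
    have h2 : #C ≤ #((⋃ x : A, E (Sum.inl x)) ∪ (⋃ x : B, E (Sum.inr (Sum.inl x))) : Set (A ⊕ B ⊕ C)) := by
      rw [← mk_range_eq (fun c : C => (Sum.inr (Sum.inr c) : A ⊕ B ⊕ C))
        (fun x y h => Sum.inr_injective (Sum.inr_injective h))]
      exact mk_le_mk_of_subset h1
    have h3 := mk_union_le (⋃ x : A, E (Sum.inl x)) (⋃ x : B, E (Sum.inr (Sum.inl x)))
    have h4 : #((⋃ x : A, E (Sum.inl x)) : Set (A ⊕ B ⊕ C)) ≤ #B :=
      (hunion A _ hA.le).trans hAB.le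
    have h5 := hunion B (fun x => Sum.inr (Sum.inl x)) hB0
    have h6 : #C ≤ #B := by
      calc #C ≤ _ := h2
        _ ≤ _ := h3
        _ ≤ #B + #B := add_le_add h4 h5
        _ = #B := add_eq_self hB0
    exact absurd h6 (not_le.mpr hBC)
  obtain ⟨b, hb1, hb2⟩ : ∃ b : B, Sum.inr (Sum.inl b) ∉ (⋃ x : A, E (Sum.inl x)) ∧
      Sum.inr (Sum.inl b) ∉ E (Sum.inr (Sum.inr c)) := by
    by_contra hcon
    push Not at hcon
    have h1 : Set.range (fun b : B => (Sum.inr (Sum.inl b) : A ⊕ B ⊕ C)) ⊆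
        (⋃ x : A, E (Sum.inl x)) ∪ E (Sum.inr (Sum.inr c)) := by
      rintro _ ⟨b, rfl⟩
      by_cases h : Sum.inr (Sum.inl b) ∈ (⋃ x : A, E (Sum.inl x))
      · exact Or.inl h
      · exact Or.inr (hcon b h)
    have h2 : #B ≤ #((⋃ x : A, E (Sum.inl x)) ∪ E (Sum.inr (Sum.inr c)) : Set (A ⊕ B ⊕ C)) := by
      rw [← mk_range_eq (fun b : B => (Sum.inr (Sum.inl b) : A ⊕ B ⊕ C))
        (fun x y h => Sum.inl_injective (Sum.inr_injective h))]
      exact mk_le_mk_of_subset h1
    have h3 := mk_union_le (⋃ x : A, E (Sum.inl x)) (E (Sum.inr (Sum.inr c)))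
    have h4 := hunion A (fun x => Sum.inl x) hA.le
    have h6 : #B ≤ #A := by
      calc #B ≤ _ := h2
        _ ≤ _ := h3
        _ ≤ #A + #A := add_le_add h4 ((hEc _).trans hA.le)
        _ = #A := add_eq_self hA.le
    exact absurd h6 (not_le.mpr hAB)
  obtain ⟨a, ha1⟩ : ∃ a : A, Sum.inl a ∉ E (Sum.inr (Sum.inl b)) ∪ E (Sum.inr (Sum.inr c)) := by
    by_contra hcon
    push Not at hcon
    have h1 : Set.range (fun a : A => (Sum.inl a : A ⊕ B ⊕ C)) ⊆
        E (Sum.inr (Sum.inl b)) ∪ E (Sum.inr (Sum.inr c)) := by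
      rintro _ ⟨a, rfl⟩
      exact hcon a
    have h2 : (Set.range (fun a : A => (Sum.inl a : A ⊕ B ⊕ C))).Countable :=
      ((hE _).union (hE _)).mono h1
    have h3 : #A ≤ ℵ₀ := by
      rw [← mk_range_eq (fun a : A => (Sum.inl a : A ⊕ B ⊕ C)) Sum.inl_injective]
      exact h2.le_aleph0
    exact absurd h3 (not_le.mpr hA)
  refine ⟨Sum.inl a, Sum.inr (Sum.inl b), Sum.inr (Sum.inr c), by simp, by simp, by simp,
    fun h => ha1 (Or.inl h), fun h => ha1 (Or.inr h), fun h => hb1 (mem_iUnion.mpr ⟨a, h⟩), hb2,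
    fun h => hc1 (mem_iUnion.mpr ⟨a, h⟩), fun h => hc2 (mem_iUnion.mpr ⟨b, h⟩)⟩

/-- transfinite choice of a family with pairwise disjoint countable footprints -/
lemma exists_disjoint_family {P Γ : Type} (D : P → Set Γ) (hD : ∀ p, (D p).Countable)
    (h : ∀ E : Set Γ, E.Countable → ∃ p, Disjoint (D p) E) (O : Type) [LinearOrder O]
    [WellFoundedLT O] (hc : ∀ t : O, (Set.Iio t).Countable) :
    ∃ p : O → P, ∀ s t, s ≠ t → Disjoint (D (p s)) (D (p t)) := by
  have hcount : ∀ (t : O) (ih : (s : O) → s < t → P),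
      (⋃ s : Set.Iio t, D (ih s.1 s.2)).Countable := by
    intro t ih
    haveI : Countable (Set.Iio t) := (hc t).to_subtype
    exact countable_iUnion (fun s => hD _)
  let F : (t : O) → ((s : O) → s < t → P) → P := fun t ih =>
    Classical.choose (h _ (hcount t ih))
  let p : O → P := (wellFounded_lt (α := O)).fix F
  have hp : ∀ t, p t = F t (fun s _ => p s) := fun t => WellFounded.fix_eq _ F t
  have hdis : ∀ s t, s < t → Disjoint (D (p s)) (D (p t)) := by
    intro s t hst
    have h1 := Classical.choose_spec (h _ (hcount t (fun s _ => p s)))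
    have h2 : Disjoint (D (p t)) (⋃ s : Set.Iio t, D (p s.1)) := by
      rw [hp t]; exact h1
    refine (h2.mono_right ?_).symm
    exact subset_iUnion (fun s : Set.Iio t => D (p s.1)) ⟨s, hst⟩
  refine ⟨p, fun s t hst => ?_⟩
  rcases lt_or_gt_of_ne hst with h1 | h1
  · exact hdis s t h1
  · exact (hdis t s h1).symm

section hilbert

variable {H Γ : Type} [NormedAddCommGroup H] [InnerProductSpace ℝ H] [DecidableEq Γ]

/-- generators of the two simplices attached to a finite index set -/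
def gens (e : Γ → H) : Bool → Finset Γ → Set H
  | false, T => insert 0 (e '' (T : Set Γ))
  | true, T => insert (∑ i ∈ T, e i) ((fun i => (∑ j ∈ T, e j) - e i) '' (T : Set Γ))

/-- the two simplices attached to a finite index set -/
def simp' (e : Γ → H) (b : Bool) (T : Finset Γ) : Set H := convexHull ℝ (gens e b T)

lemma gens_finite (e : Γ → H) (b : Bool) (T : Finset Γ) : (gens e b T).Finite := by
  cases b
  · exact (T.finite_toSet.image _).insert _
  · exact (T.finite_toSet.image _).insert _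

lemma gens_nonempty (e : Γ → H) (b : Bool) (T : Finset Γ) : (gens e b T).Nonempty := by
  cases b
  · exact ⟨0, mem_insert _ _⟩
  · exact ⟨_, mem_insert _ _⟩

lemma simp_cwk (e : Γ → H) (b : Bool) (T : Finset Γ) : simp' e b T ∈ cwk H := by
  refine ⟨(gens_nonempty e b T).convexHull, convex_convexHull _ _, ?_⟩
  have h1 : IsCompact (simp' e b T) := (gens_finite e b T).isCompact_convexHull ℝ
  exact h1.image (toWeakSpaceCLM ℝ H).continuous

/-- values of a functional vanishing on all e_i with i in T other than γ -/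
lemma simp_values (e : Γ → H) (b : Bool) (T : Finset Γ) (γ : Γ) (hγ : γ ∈ T)
    (φ : StrongDual ℝ H) (hφ : ∀ i ∈ T, i ≠ γ → φ (e i) = 0) (a : ℝ) :
    (simp' e b T ∩ {x | a < φ x}).Nonempty ↔ a < max 0 (φ (e γ)) := by
  have hsum : φ (∑ i ∈ T, e i) = φ (e γ) := by
    rw [map_sum]
    rw [Finset.sum_eq_single γ]
    · intro i hi hne; exact hφ i hi hne
    · intro h; exact absurd hγ h
  have hgen : ∀ x ∈ gens e b T, φ x ≤ max 0 (φ (e γ)) := by
    intro x hx
    cases b
    · rcases hx with rfl | ⟨i, hi, rfl⟩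
      · simp
      · by_cases h : i = γ
        · rw [h]; exact le_max_right _ _
        · rw [hφ i hi h]; exact le_max_left _ _
    · rcases hx with rfl | ⟨i, hi, rfl⟩
      · rw [hsum]; exact le_max_right _ _
      · show φ ((∑ j ∈ T, e j) - e i) ≤ _
        rw [map_sub, hsum]
        by_cases h : i = γ
        · rw [h]; simp
        · rw [hφ i hi h]; simp
  have hall : ∀ x ∈ simp' e b T, φ x ≤ max 0 (φ (e γ)) := by
    have hcv : Convex ℝ {x | φ x ≤ max 0 (φ (e γ))} := convex_halfSpace_le φ.isLinear _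
    exact fun x hx => (convexHull_min (fun y hy => hgen y hy) hcv) hx
  constructor
  · rintro ⟨x, hx, hx2⟩
    exact lt_of_lt_of_le hx2 (hall x hx)
  · intro ha
    have h0 : ∃ x ∈ gens e b T, φ x = 0 := by
      cases b
      · exact ⟨0, mem_insert _ _, map_zero _⟩
      · refine ⟨_, mem_insert_of_mem _ ⟨γ, hγ, rfl⟩, ?_⟩
        show φ ((∑ j ∈ T, e j) - e γ) = 0
        rw [map_sub, hsum, sub_self]
    have h1 : ∃ x ∈ gens e b T, φ x = φ (e γ) := by
      cases b
      · exact ⟨e γ, mem_insert_of_mem _ ⟨γ, hγ, rfl⟩, rfl⟩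
      · exact ⟨_, mem_insert _ _, hsum⟩
    rcases lt_max_iff.mp ha with h | h
    · obtain ⟨x, hx, hx2⟩ := h0
      exact ⟨x, subset_convexHull _ _ hx, by show a < φ x; rw [hx2]; exact h⟩
    · obtain ⟨x, hx, hx2⟩ := h1
      exact ⟨x, subset_convexHull _ _ hx, by show a < φ x; rw [hx2]; exact h⟩

lemma countable_support_functional [CompleteSpace H] (e : Γ → H) (he : Orthonormal ℝ e)
    (φ : StrongDual ℝ H) : {i | φ (e i) ≠ 0}.Countable := by
  set y := (InnerProductSpace.toDual ℝ H).symm φ with hy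
  have h1 : ∀ x, φ x = inner ℝ y x := by
    intro x
    rw [hy, InnerProductSpace.toDual_symm_apply]
  have h2 := (he.inner_products_summable y).countable_support
  apply h2.mono
  intro i hi
  rw [Function.mem_support]
  intro h3
  apply hi
  rw [h1, real_inner_comm]
  simpa using h3

lemma sum_coord (e : Γ → H) (he : Orthonormal ℝ e) (T : Finset Γ) (hT : T.card = 3)
    (x : H) : (x ∈ simp' e false T → ∑ i ∈ T, inner ℝ (e i) x ≤ 1) ∧
      (x ∈ simp' e true T → 2 ≤ ∑ i ∈ T, inner ℝ (e i) x) := by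
  have hlin : ∀ x, ∑ i ∈ T, inner ℝ (e i) x = innerSL ℝ (∑ i ∈ T, e i) x := by
    intro x
    rw [innerSL_apply_apply, sum_inner]
  have hee : ∀ i ∈ T, innerSL ℝ (∑ i ∈ T, e i) (e i) = 1 := by
    intro i hi
    rw [← hlin]
    rw [Finset.sum_eq_single i]
    · rw [real_inner_self_eq_norm_sq, he.1 i]; norm_num
    · intro j _ hj; exact he.2 hj
    · intro h; exact absurd hi h
  have hes : innerSL ℝ (∑ i ∈ T, e i) (∑ i ∈ T, e i) = 3 := by
    rw [map_sum, Finset.sum_congr rfl hee]
    simp [hT]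
  constructor
  · intro hx
    rw [hlin]
    have hcv : Convex ℝ {x | innerSL ℝ (∑ i ∈ T, e i) x ≤ 1} :=
      convex_halfSpace_le (innerSL ℝ (∑ i ∈ T, e i)).isLinear _
    refine (convexHull_min ?_ hcv) hx
    rintro y (rfl | ⟨i, hi, rfl⟩)
    · show innerSL ℝ (∑ i ∈ T, e i) 0 ≤ 1
      rw [map_zero]; norm_num
    · show innerSL ℝ (∑ i ∈ T, e i) (e i) ≤ 1
      rw [hee i hi]
  · intro hx
    rw [hlin]
    have hcv : Convex ℝ {x | 2 ≤ innerSL ℝ (∑ i ∈ T, e i) x} :=
      convex_halfSpace_ge (innerSL ℝ (∑ i ∈ T, e i)).isLinear _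
    refine (convexHull_min ?_ hcv) hx
    rintro y (rfl | ⟨i, hi, rfl⟩)
    · show 2 ≤ innerSL ℝ (∑ i ∈ T, e i) (∑ i ∈ T, e i)
      rw [hes]; norm_num
    · show 2 ≤ innerSL ℝ (∑ i ∈ T, e i) ((∑ j ∈ T, e j) - e i)
      rw [map_sub, hes, hee i hi]; norm_num

end hilbert

section main

variable {H Γ : Type} [NormedAddCommGroup H] [InnerProductSpace ℝ H] [CompleteSpace H]
  [DecidableEq Γ]

/-- key lemma: under the (SC)-type hypothesis on the countable-cocountable space, for every
measurable set B of reals, either B or its complement is avoided off a countable set of indices -/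
lemma key (e : Γ → H) (he : Orthonormal ℝ e) (O : Type) [LinearOrder O]
    [WellFoundedLT O] (hc : ∀ t : O, (Set.Iio t).Countable) [Uncountable O]
    (ψ : Set H → H)
    (hSC : letI := ccMS (O × Bool)
      ∀ F : O × Bool → Set H, (∀ t, F t ∈ cwk H) → ScalarlyMeasurableMulti F →
        ScalarlyMeasurable (fun t => ψ (F t)))
    (γ : Γ) (B : Set ℝ) (hB : MeasurableSet B) :
    (∃ E : Set Γ, E.Countable ∧ ∀ (b : Bool) (T : Finset Γ), γ ∈ T →
      Disjoint ((T.erase γ : Finset Γ) : Set Γ) E → inner ℝ (e γ) (ψ (simp' e b T)) ∉ B) ∨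
    (∃ E : Set Γ, E.Countable ∧ ∀ (b : Bool) (T : Finset Γ), γ ∈ T →
      Disjoint ((T.erase γ : Finset Γ) : Set Γ) E → inner ℝ (e γ) (ψ (simp' e b T)) ∈ B) := by
  by_contra hcon
  push Not at hcon
  obtain ⟨h1, h2⟩ := hcon
  let P := {p : (Bool × Finset Γ) × (Bool × Finset Γ) // γ ∈ p.1.2 ∧ γ ∈ p.2.2 ∧
    inner ℝ (e γ) (ψ (simp' e p.1.1 p.1.2)) ∈ B ∧ inner ℝ (e γ) (ψ (simp' e p.2.1 p.2.2)) ∉ B}
  let D : P → Set Γ := fun p => ((p.1.1.2.erase γ : Finset Γ) : Set Γ) ∪
    ((p.1.2.2.erase γ : Finset Γ) : Set Γ)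
  have hD : ∀ p, (D p).Countable := fun p =>
    (Finset.countable_toSet _).union (Finset.countable_toSet _)
  have hex : ∀ E : Set Γ, E.Countable → ∃ p, Disjoint (D p) E := by
    intro E hE
    obtain ⟨b, T, hT1, hT2, hT3⟩ := h1 E hE
    obtain ⟨b', T', hT1', hT2', hT3'⟩ := h2 E hE
    refine ⟨⟨((b, T), (b', T')), hT1, hT1', hT3, hT3'⟩, ?_⟩
    exact Set.disjoint_union_left.mpr ⟨hT2, hT2'⟩
  obtain ⟨p, hp⟩ := exists_disjoint_family D hD hex O hc
  let F : O × Bool → Set H := fun x => match x with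
    | (t, false) => simp' e (p t).1.1.1 (p t).1.1.2
    | (t, true) => simp' e (p t).1.2.1 (p t).1.2.2
  letI := ccMS (O × Bool)
  have hFm : ScalarlyMeasurableMulti F := by
    intro φ _ a
    set N : Set Γ := {i | φ (e i) ≠ 0} with hN
    have hNc : N.Countable := countable_support_functional e he φ
    set X : Set O := {t | ¬ Disjoint (D (p t)) N} with hX
    have hXc : X.Countable := by
      have hch : ∀ t : X, ∃ i, i ∈ D (p t.1) ∧ i ∈ N := by
        intro t
        exact Set.not_disjoint_iff.mp t.2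
      choose g hg1 hg2 using hch
      have hinj : Function.Injective (fun t : X => (⟨g t, hg2 t⟩ : N)) := by
        intro s t hst
        by_contra hne
        have hne' : s.1 ≠ t.1 := fun h => hne (Subtype.ext h)
        have h3 : g s = g t := congrArg Subtype.val hst
        have h4 := hg1 s
        rw [h3] at h4
        exact Set.disjoint_left.mp (hp s.1 t.1 hne') h4 (hg1 t)
      haveI : Countable N := hNc.to_subtype
      exact Set.countable_coe_iff.mp hinj.countable
    have hXc' : (X ×ˢ (Set.univ : Set Bool)).Countable := hXc.prod (Set.to_countable _)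
    have hgood : ∀ x : O × Bool, x.1 ∉ X → ((F x ∩ {y | a < φ y}).Nonempty ↔ a < max 0 (φ (e γ))) := by
      rintro ⟨t, b⟩ ht
      have hdis : Disjoint (D (p t)) N := by
        by_contra h; exact ht h
      cases b
      · apply simp_values e _ _ γ (p t).2.1 φ
        intro i hi hne
        by_contra hi0
        exact Set.disjoint_left.mp hdis (Or.inl (by simpa using ⟨hi, hne⟩)) hi0
      · apply simp_values e _ _ γ (p t).2.2.1 φ
        intro i hi hne
        by_contra hi0
        exact Set.disjoint_left.mp hdis (Or.inr (by simpa using ⟨hi, hne⟩)) hi0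
    by_cases hac : a < max 0 (φ (e γ))
    · right
      apply hXc'.mono
      intro x hx
      refine ⟨?_, trivial⟩
      by_contra hxX
      exact hx ((hgood x hxX).mpr hac)
    · left
      apply hXc'.mono
      intro x hx
      refine ⟨?_, trivial⟩
      by_contra hxX
      exact hac ((hgood x hxX).mp hx)
  have hFc : ∀ t, F t ∈ cwk H := by
    rintro ⟨t, b⟩
    cases b
    · exact simp_cwk e _ _
    · exact simp_cwk e _ _
  have hmeas := hSC F hFc hFm (innerSL ℝ (e γ)) hB
  have hset : (fun x => innerSL ℝ (e γ) (ψ (F x))) ⁻¹' B = (Set.univ : Set O) ×ˢ {false} := by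
    ext ⟨t, b⟩
    cases b
    · simp only [Set.mem_preimage, Set.mem_prod, Set.mem_univ, Set.mem_singleton_iff, and_self,
        iff_true]
      exact (p t).2.2.2.1
    · simp only [Set.mem_preimage, Set.mem_prod, Set.mem_univ, Set.mem_singleton_iff,
        iff_false, Bool.true_eq_false, and_false]
      exact (p t).2.2.2.2
  rw [hset] at hmeas
  have hunc : ∀ b : Bool, ¬ ((Set.univ : Set O) ×ˢ ({b} : Set Bool)).Countable := by
    intro b hcount
    have : (Set.univ : Set O).Countable := by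
      have h5 := hcount.image Prod.fst
      apply h5.mono
      intro t _
      exact ⟨(t, b), ⟨trivial, rfl⟩, rfl⟩
    exact Set.not_countable_univ this
  rcases hmeas with h | h
  · exact hunc false h
  · apply hunc true
    apply h.mono
    rintro ⟨t, b⟩ ⟨_, hb⟩ hmem
    have hb1 : b = true := hb
    have hb2 : b = false := hmem.2
    rw [hb1] at hb2
    exact absurd hb2 (by simp)

theorem main_hilbert {A B C : Type} [DecidableEq (A ⊕ B ⊕ C)]
    (hA : ℵ₀ < #A) (hAB : #A < #B) (hBC : #B < #C)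
    (e : A ⊕ B ⊕ C → H) (he : Orthonormal ℝ e) (O : Type) [LinearOrder O]
    [WellFoundedLT O] (hc : ∀ t : O, (Set.Iio t).Countable) [Uncountable O]
    (ψ : Set H → H) (hψ : ∀ K ∈ cwk H, ψ K ∈ K) :
    letI := ccMS (O × Bool)
    ∃ F : O × Bool → Set H, (∀ t, F t ∈ cwk H) ∧ ScalarlyMeasurableMulti F ∧
        ¬ ScalarlyMeasurable (fun t => ψ (F t)) := by
  letI := ccMS (O × Bool)
  by_contra hcon
  push Not at hcon
  -- for each γ a countable exceptional set
  have hE : ∀ γ : A ⊕ B ⊕ C, ∃ E : Set (A ⊕ B ⊕ C), E.Countable ∧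
      ∀ (b b' : Bool) (T T' : Finset (A ⊕ B ⊕ C)), γ ∈ T → γ ∈ T' →
      Disjoint ((T.erase γ : Finset (A ⊕ B ⊕ C)) : Set (A ⊕ B ⊕ C)) E →
      Disjoint ((T'.erase γ : Finset (A ⊕ B ⊕ C)) : Set (A ⊕ B ⊕ C)) E →
      inner ℝ (e γ) (ψ (simp' e b T)) = inner ℝ (e γ) (ψ (simp' e b' T')) := by
    intro γ
    have h1 : ∀ r : ℚ, ∃ E : Set (A ⊕ B ⊕ C), E.Countable ∧
        ∀ (b b' : Bool) (T T' : Finset (A ⊕ B ⊕ C)), γ ∈ T → γ ∈ T' →
        Disjoint ((T.erase γ : Finset (A ⊕ B ⊕ C)) : Set (A ⊕ B ⊕ C)) E →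
        Disjoint ((T'.erase γ : Finset (A ⊕ B ⊕ C)) : Set (A ⊕ B ⊕ C)) E →
        inner ℝ (e γ) (ψ (simp' e b T)) ≤ (r : ℝ) → inner ℝ (e γ) (ψ (simp' e b' T')) ≤ (r : ℝ) := by
      intro r
      rcases key e he O hc ψ hcon γ (Set.Iic (r : ℝ)) measurableSet_Iic with ⟨E, hE1, hE2⟩ | ⟨E, hE1, hE2⟩
      · refine ⟨E, hE1, fun b b' T T' hT hT' hd hd' hle => ?_⟩
        exact absurd hle (hE2 b T hT hd)
      · refine ⟨E, hE1, fun b b' T T' hT hT' hd hd' hle => ?_⟩
        exact hE2 b' T' hT' hd'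
    choose E hE1 hE2 using h1
    refine ⟨⋃ r, E r, countable_iUnion hE1, ?_⟩
    have hle : ∀ (b b' : Bool) (T T' : Finset (A ⊕ B ⊕ C)), γ ∈ T → γ ∈ T' →
      Disjoint ((T.erase γ : Finset (A ⊕ B ⊕ C)) : Set (A ⊕ B ⊕ C)) (⋃ r, E r) →
      Disjoint ((T'.erase γ : Finset (A ⊕ B ⊕ C)) : Set (A ⊕ B ⊕ C)) (⋃ r, E r) →
      inner ℝ (e γ) (ψ (simp' e b' T')) ≤ inner ℝ (e γ) (ψ (simp' e b T)) := by
      intro b b' T T' hT hT' hd hd'
      by_contra hlt
      obtain ⟨r, hr1, hr2⟩ := exists_rat_btwn (not_le.mp hlt)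
      have h3 := hE2 r b b' T T' hT hT' (hd.mono_right (subset_iUnion E r))
        (hd'.mono_right (subset_iUnion E r)) hr1.le
      exact absurd h3 (not_le.mpr hr2)
    intro b b' T T' hT hT' hd hd'
    exact le_antisymm (hle b' b T' T hT' hT hd' hd) (hle b b' T T' hT hT' hd hd')
  choose E hE1 hE2 using hE
  obtain ⟨a, b, c, hab, hac, hbc, h1, h2, h3, h4, h5, h6⟩ := free_triple hA hAB hBC E hE1
  set T : Finset (A ⊕ B ⊕ C) := {a, b, c} with hT
  have hTc : T.card = 3 := Finset.card_eq_three.mpr ⟨a, b, c, hab, hac, hbc, rfl⟩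
  have hdis : ∀ i ∈ T, Disjoint ((T.erase i : Finset (A ⊕ B ⊕ C)) : Set (A ⊕ B ⊕ C)) (E i) := by
    intro i hi
    rw [Set.disjoint_left]
    intro j hj hjE
    have hj' : j ∈ T ∧ j ≠ i := by simpa using hj
    obtain ⟨hjT, hne⟩ := hj'
    rw [hT] at hi hjT
    simp only [Finset.mem_insert, Finset.mem_singleton] at hi hjT
    rcases hi with rfl | rfl | rfl <;> rcases hjT with rfl | rfl | rfl <;>
      first | exact hne rfl | contradiction
  have hco : ∀ i ∈ T, inner ℝ (e i) (ψ (simp' e false T)) = inner ℝ (e i) (ψ (simp' e true T)) :=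
    fun i hi => hE2 i false true T T hi hi (hdis i hi) (hdis i hi)
  have hs := Finset.sum_congr rfl hco
  have hl := (sum_coord e he T hTc _).1 (hψ _ (simp_cwk e false T))
  have hr := (sum_coord e he T hTc _).2 (hψ _ (simp_cwk e true T))
  linarith

end main

/-- There are a real Hilbert space X and a complete probability space Ω such that no set selector
of the family of nonempty convex weakly compact subsets of X maps every scalarly measurable
multi-function on Ω to a scalarly measurable function. -/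
theorem result :
    ∃ (X : Type) (_ : NormedAddCommGroup X) (_ : InnerProductSpace ℝ X) (_ : CompleteSpace X)
      (Ω : Type) (_ : MeasurableSpace Ω) (μ : Measure Ω) (_ : IsProbabilityMeasure μ)
      (_ : μ.IsComplete),
      ∀ ψ : Set X → X, (∀ C ∈ cwk X, ψ C ∈ C) →
        ∃ F : Ω → Set X, (∀ t, F t ∈ cwk X) ∧ ScalarlyMeasurableMulti F ∧
          ¬ ScalarlyMeasurable (fun t => ψ (F t)) := by
  classical
  let A : Type := (aleph.{0} 1).ord.ToType
  let B : Type := (aleph.{0} 2).ord.ToType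
  let C : Type := (aleph.{0} 3).ord.ToType
  have hA : ℵ₀ < #A := by rw [mk_ord_toType]; exact aleph0_lt_aleph_one
  have hAB : #A < #B := by
    rw [mk_ord_toType, mk_ord_toType]; exact aleph_lt_aleph.mpr (by norm_num)
  have hBC : #B < #C := by
    rw [mk_ord_toType, mk_ord_toType]; exact aleph_lt_aleph.mpr (by norm_num)
  have hunc : Uncountable A := by
    rw [← aleph0_lt_mk_iff]; exact hA
  have hc : ∀ t : A, (Set.Iio t).Countable := by
    intro t
    rw [← le_aleph0_iff_set_countable]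
    exact Order.lt_succ_iff.mp (lt_of_lt_of_eq (mk_Iio_toType_ord_lt t) succ_aleph0.symm)
  let X := lp (fun _ : A ⊕ B ⊕ C => ℝ) 2
  let bas : HilbertBasis (A ⊕ B ⊕ C) ℝ X := default
  letI := ccMS (A × Bool)
  refine ⟨X, inferInstance, inferInstance, inferInstance, A × Bool, ccMS (A × Bool),
    ccMeasure (A × Bool), ccMeasure_prob _, ccMeasure_complete _, ?_⟩
  intro ψ hψ
  exact main_hilbert hA hAB hBC bas bas.orthonormal A hc ψ hψ

end Pool.Agent.Results.MP_de1370_an.CwkFailsSC
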